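import Pool.Agent.H8.PF.Space2

set_option autoImplicit false

open Set Filter Topology

namespace Pool.Agent.H8.PF

open Classical in
noncomputable def ext (S : Set X) (c : X → ℝ) : X → ℝ
  | X.inf => c X.inf
  | X.q i a => if X.q i a ∈ S then c (X.q i a) else c X.inf
  | X.r i b => if X.r i b ∈ S then c (X.r i b) else c X.inf
  | X.p i a b => if X.p i a b ∈ S then c (X.p i a b) else
      if X.q i a ∈ S then c (X.q i a) else
      if X.r i b ∈ S then c (X.r i b) else c X.inf

theorem continuous_ext {S : Set X} (hS : S.Countable) (c : X → ℝ) : Continuous (ext S c) := by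
  classical
  have hpb : ∀ i a, {b | X.p i a b ∈ S}.Countable := fun i a =>
    hS.preimage (f := fun b => X.p i a b) (fun b b' h => by injection h)
  have hpa : ∀ i b, {a | X.p i a b ∈ S}.Countable := fun i b =>
    hS.preimage (f := fun a => X.p i a b) (fun b b' h => by injection h)
  have hq : ∀ i, {a | X.q i a ∈ S}.Countable := fun i =>
    hS.preimage (f := fun a => X.q i a) (fun b b' h => by injection h)
  have hr : ∀ i, {b | X.r i b ∈ S}.Countable := fun i =>
    hS.preimage (f := fun b => X.r i b) (fun b b' h => by injection h)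
  have hpp : ∀ i, {a | ∃ b, X.p i a b ∈ S}.Countable := by
    intro i
    let pr : X → ℝ := fun x => match x with
      | X.p _ a _ => a
      | _ => 0
    refine (hS.image pr).mono ?_
    rintro a ⟨b, hb⟩
    exact ⟨_, hb, rfl⟩
  refine ⟨fun V hV => ?_⟩
  rw [isOpen_def]
  refine ⟨?_, ?_, ?_⟩
  · intro i a h
    apply Sm.countable
    refine ((hpb i a).union (hr i)).mono ?_
    intro b hb
    by_contra hc
    rw [mem_union, not_or] at hc
    obtain ⟨h1, h2⟩ := hc
    simp only [Set.mem_ofPred_eq] at h1 h2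
    apply hb
    simp only [mem_preimage, ext] at h ⊢
    rw [if_neg h1, if_neg h2]
    exact h
  · intro i b h
    refine ((hpa i b).union (hq i)).mono ?_
    intro a ha
    by_contra hc
    rw [mem_union, not_or] at hc
    obtain ⟨h1, h2⟩ := hc
    simp only [Set.mem_ofPred_eq] at h1 h2
    apply ha
    simp only [mem_preimage, ext] at h ⊢
    rw [if_neg h1, if_neg h2]
    exact h
  · intro h
    refine finite_empty.subset ?_
    intro i hi
    refine hi ⟨_, _, (hq i).union (hpp i), Sm.countable (hr i), ?_, ?_, ?_⟩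
    · intro a ha
      rw [mem_union, not_or] at ha
      have h1 := ha.1
      simp only [Set.mem_ofPred_eq] at h1
      simp only [mem_preimage, ext] at h ⊢
      rw [if_neg h1]
      exact h
    · intro b hb
      simp only [Set.mem_ofPred_eq] at hb
      simp only [mem_preimage, ext] at h ⊢
      rw [if_neg hb]
      exact h
    · intro a ha b hb
      rw [mem_union, not_or] at ha
      have h1 := ha.1
      have h2 := ha.2
      simp only [Set.mem_ofPred_eq, not_exists] at h1 h2 hb
      simp only [mem_preimage, ext] at h ⊢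
      rw [if_neg (h2 b), if_neg h1, if_neg hb]
      exact h

theorem ext_eq {S : Set X} (c : X → ℝ) {x : X} (hx : x ∈ S) : ext S c x = c x := by
  rcases x with _ | ⟨i, a, b⟩ | ⟨i, a⟩ | ⟨i, b⟩ <;> simp [ext, hx]

/-- every continuous real function is constant on a trace of the `i`-th corner -/
theorem plank {g : X → ℝ} (hg : Continuous g) (i : ℝ) : ∃ x, Tr i {y | g y = g x} := by
  have key1 : ∀ a, Sm {b | g (X.p i a b) ≠ g (X.q i a)} := by
    intro a
    have h1 : {b | g (X.p i a b) ≠ g (X.q i a)} ⊆
        ⋃ n : ℕ, {b | X.p i a b ∉ g ⁻¹' (Metric.ball (g (X.q i a)) (1 / ((n : ℝ) + 1)))} := by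
      intro b hb
      have hd : 0 < dist (g (X.p i a b)) (g (X.q i a)) := dist_pos.2 hb
      obtain ⟨n, hn⟩ := exists_nat_one_div_lt hd
      refine mem_iUnion.2 ⟨n, ?_⟩
      intro h
      rw [mem_preimage, Metric.mem_ball] at h
      exact absurd (h.trans hn) (lt_irrefl _)
    refine Sm.mono h1 (Sm.iUnionNat fun n => ?_)
    have ho := isOpen_def.1 (Metric.isOpen_ball.preimage hg (t := Metric.ball (g (X.q i a)) (1 / ((n : ℝ) + 1))))
    exact ho.1 i a (by
      rw [mem_preimage]
      exact Metric.mem_ball_self (by positivity))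
  have key2 : ∀ b, {a | g (X.p i a b) ≠ g (X.r i b)}.Countable := by
    intro b
    have h1 : {a | g (X.p i a b) ≠ g (X.r i b)} ⊆
        ⋃ n : ℕ, {a | X.p i a b ∉ g ⁻¹' (Metric.ball (g (X.r i b)) (1 / ((n : ℝ) + 1)))} := by
      intro a ha
      have hd : 0 < dist (g (X.p i a b)) (g (X.r i b)) := dist_pos.2 ha
      obtain ⟨n, hn⟩ := exists_nat_one_div_lt hd
      refine mem_iUnion.2 ⟨n, ?_⟩
      intro h
      rw [mem_preimage, Metric.mem_ball] at h
      exact absurd (h.trans hn) (lt_irrefl _)
    refine Set.Countable.mono h1 (countable_iUnion fun n => ?_)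
    have ho := isOpen_def.1 (Metric.isOpen_ball.preimage hg (t := Metric.ball (g (X.r i b)) (1 / ((n : ℝ) + 1))))
    exact ho.2.1 i b (by
      rw [mem_preimage]
      exact Metric.mem_ball_self (by positivity))
  have hB := Sm.iUnion key1
  obtain ⟨b0, hb0⟩ := hB.exists_notMem
  have hb0' : ∀ a, g (X.p i a b0) = g (X.q i a) := by
    intro a
    by_contra h
    exact hb0 (mem_iUnion.2 ⟨a, h⟩)
  have hq : ∀ a ∉ {a | g (X.p i a b0) ≠ g (X.r i b0)}, g (X.q i a) = g (X.r i b0) := by
    intro a ha
    simp only [Set.mem_ofPred_eq, ne_eq, not_not] at ha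
    rw [← hb0' a, ha]
  have hp : ∀ a ∉ {a | g (X.p i a b0) ≠ g (X.r i b0)},
      ∀ b ∉ (⋃ a, {b | g (X.p i a b) ≠ g (X.q i a)}), g (X.p i a b) = g (X.r i b0) := by
    intro a ha b hb
    rw [← hq a ha]
    by_contra h
    exact hb (mem_iUnion.2 ⟨a, h⟩)
  refine ⟨X.r i b0, _, _, key2 b0, hB, hq, ?_, hp⟩
  intro b hb
  obtain ⟨a, ha⟩ := exists_notMem_real ((key2 b0).union (key2 b))
  rw [mem_union, not_or] at ha
  have h2 := ha.2
  simp only [Set.mem_ofPred_eq, ne_eq, not_not] at h2
  change g (X.r i b) = g (X.r i b0)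
  rw [← h2]
  exact hp a ha.1 b hb

/-- combinatorial lemma: infinitely many bounded finite conditions of bounded size have an
infinite subfamily which is approximately compatible -/
theorem compat {ι Z : Type} (N : ℝ) (ε : ℝ) (hε : 0 < ε) (n : ℕ) :
    ∀ (K : Set ι) (F : ι → Finset Z) (v : ι → Z → ℝ), K.Infinite → (∀ k ∈ K, (F k).card ≤ n) →
      (∀ k ∈ K, ∀ x ∈ F k, |v k x| ≤ N) →
      ∃ K' ⊆ K, K'.Infinite ∧ ∃ h : Z → ℝ, ∀ k ∈ K', ∀ x ∈ F k, |h x - v k x| < ε := by
  classical
  induction n with
  | zero =>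
    intro K F v hK hc hb
    refine ⟨K, Subset.rfl, hK, fun _ => 0, ?_⟩
    intro k hk x hx
    have := Finset.card_eq_zero.1 (Nat.le_zero.1 (hc k hk))
    rw [this] at hx
    simp at hx
  | succ n ih =>
    intro K F v hK hc hb
    by_cases hA : ∃ x, {k | k ∈ K ∧ x ∈ F k}.Infinite
    · obtain ⟨x, hx⟩ := hA
      -- pigeonhole
      have hcov : ∃ r : ℝ, {k | (k ∈ K ∧ x ∈ F k) ∧ |r - v k x| < ε}.Infinite := by
        by_contra hcon
        push Not at hcon
        have htot : TotallyBounded (Icc (-N) N) := isCompact_Icc.totallyBounded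
        obtain ⟨t, htf, ht⟩ := Metric.totallyBounded_iff.1 htot ε hε
        apply hx
        refine (htf.biUnion fun r _ => hcon r).subset ?_
        rintro k ⟨hk, hxk⟩
        have h1 := ht (abs_le.1 (hb k hk x hxk) : v k x ∈ Icc (-N) N)
        obtain ⟨r, hr, hball⟩ := mem_iUnion₂.1 h1
        refine mem_iUnion₂.2 ⟨r, hr, ⟨hk, hxk⟩, ?_⟩
        rw [Metric.mem_ball, Real.dist_eq, abs_sub_comm] at hball
        exact hball
      obtain ⟨r, hr⟩ := hcov
      obtain ⟨K', hK', hinf, h, hh⟩ := ih {k | (k ∈ K ∧ x ∈ F k) ∧ |r - v k x| < ε}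
        (fun k => (F k).erase x) v hr (by
          intro k hk
          rw [Finset.card_erase_of_mem hk.1.2]
          have := hc k hk.1.1
          omega) (by
          intro k hk y hy
          exact hb k hk.1.1 y (Finset.mem_of_mem_erase hy))
      refine ⟨K', fun k hk => (hK' hk).1.1, hinf, Function.update h x r, ?_⟩
      intro k hk y hy
      by_cases hyx : y = x
      · rw [hyx, Function.update_self]
        exact (hK' hk).2
      · rw [Function.update_of_ne hyx]
        exact hh k hk y (Finset.mem_erase.2 ⟨hyx, hy⟩)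
    · push Not at hA
      have hA' : ∀ x, {k | k ∈ K ∧ x ∈ F k}.Finite := fun x => hA x
      -- maximal subset with pairwise disjoint supports
      obtain ⟨M, hM⟩ := zorn_subset {M : Set ι | M ⊆ K ∧ M.PairwiseDisjoint F} (by
        intro c hc' hchain
        refine ⟨⋃₀ c, ⟨sUnion_subset fun s hs => (hc' hs).1, ?_⟩, fun s hs => subset_sUnion_of_mem hs⟩
        exact (pairwiseDisjoint_sUnion hchain.directedOn).2 fun s hs => (hc' hs).2)
      have hMi : M.Infinite := by
        intro hfin
        have hfin2 : (⋃ k ∈ M, ⋃ x ∈ F k, {k' | k' ∈ K ∧ x ∈ F k'}).Finite :=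
          hfin.biUnion fun k _ => (F k).finite_toSet.biUnion fun x _ => hA' x
        obtain ⟨k0, hk0, hk0'⟩ := (hK.sdiff (hfin.union hfin2)).nonempty
        rw [mem_union, not_or] at hk0'
        have hmem : insert k0 M ∈ {M : Set ι | M ⊆ K ∧ M.PairwiseDisjoint F} := by
          refine ⟨insert_subset hk0 hM.prop.1, ?_⟩
          refine hM.prop.2.insert ?_
          intro k hk _
          refine Finset.disjoint_left.2 ?_
          intro x hx hx'
          exact hk0'.2 (mem_iUnion₂.2 ⟨k, hk, mem_iUnion₂.2 ⟨x, hx', hk0, hx⟩⟩)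
        have := hM.le_of_ge hmem (subset_insert _ _)
        exact hk0'.1 (this (mem_insert _ _))
      refine ⟨M, hM.prop.1, hMi, fun x => if h : ∃ k, k ∈ M ∧ x ∈ F k then v h.choose x else 0, ?_⟩
      intro k hk x hx
      have hex : ∃ k, k ∈ M ∧ x ∈ F k := ⟨k, hk, hx⟩
      simp only [dif_pos hex]
      have hch := hex.choose_spec
      have : hex.choose = k := by
        by_contra hne
        have := hM.prop.2 hch.1 hk hne
        exact Finset.disjoint_left.1 this hch.2 hx
      rw [this, sub_self, abs_zero]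
      exact hε

end Pool.Agent.H8.PF
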