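import Pool.Agent.H8.PF.Ext

set_option autoImplicit false

open Set Filter Topology

namespace Pool.Agent.H8.PF

theorem exists_delta' {Z : Type} (f : Z → ℝ) (I : Finset Z) (u : Z → Set ℝ)
    (h : ∀ a ∈ I, IsOpen (u a) ∧ f a ∈ u a) :
    ∃ δ : ℝ, 0 < δ ∧ ∀ a ∈ I, ∀ t : ℝ, |t - f a| < δ → t ∈ u a := by
  classical
  induction I using Finset.induction_on with
  | empty => exact ⟨1, one_pos, by simp⟩
  | insert i F hi ih =>
    obtain ⟨δ, hδ, hd⟩ := ih fun a ha => h a (Finset.mem_insert_of_mem ha)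
    obtain ⟨ho, h0⟩ := h i (Finset.mem_insert_self _ _)
    obtain ⟨ε, hε, hb⟩ := Metric.isOpen_iff.1 ho (f i) h0
    refine ⟨min δ ε, lt_min hδ hε, ?_⟩
    intro a ha t ht
    rcases Finset.mem_insert.1 ha with rfl | ha
    · apply hb
      rw [Metric.mem_ball, Real.dist_eq]
      exact lt_of_lt_of_le ht (min_le_right _ _)
    · exact hd a ha t (lt_of_lt_of_le ht (min_le_left _ _))

abbrev CX := {f : X → ℝ // Continuous f}

theorem basic {U : Set CX} (hU : IsOpen U) (hne : U.Nonempty) :
    ∃ n : ℕ, ∃ f : CX, ∃ F : Finset X, F.card ≤ n ∧ (∀ x ∈ F, |f.1 x| ≤ n) ∧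
      ∀ g : CX, (∀ x ∈ F, |g.1 x - f.1 x| < 1 / ((n : ℝ) + 1)) → g ∈ U := by
  classical
  obtain ⟨f, hf⟩ := hne
  obtain ⟨W, hW, rfl⟩ := isOpen_induced_iff.1 hU
  obtain ⟨I, u, hu, hIu⟩ := isOpen_pi_iff.1 hW f.1 hf
  obtain ⟨δ, hδ, hd⟩ := exists_delta' f.1 I u hu
  obtain ⟨n, hn⟩ := exists_nat_gt ((I.card : ℝ) + ∑ x ∈ I, |f.1 x| + 1 / δ)
  have hs : 0 ≤ ∑ x ∈ I, |f.1 x| := Finset.sum_nonneg fun x _ => abs_nonneg _
  have hd' : 0 < 1 / δ := by positivity
  refine ⟨n, f, I, ?_, ?_, ?_⟩
  · have : (I.card : ℝ) ≤ n := by linarith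
    exact_mod_cast this
  · intro x hx
    have := Finset.single_le_sum (f := fun x => |f.1 x|) (fun x _ => abs_nonneg _) hx
    have hc : (0 : ℝ) ≤ I.card := Nat.cast_nonneg _
    linarith
  · intro g hg
    apply hIu
    intro a ha
    apply hd a ha
    refine (hg a ha).trans ?_
    have hc : (0 : ℝ) ≤ I.card := Nat.cast_nonneg _
    rw [one_div_lt (by positivity) hδ]
    linarith

theorem pA (𝒰 : Set (Set CX)) (hU : ∀ U ∈ 𝒰, IsOpen U ∧ U.Nonempty)
    (hfin : ∀ y : CX, {U | U ∈ 𝒰 ∧ y ∈ U}.Finite) : 𝒰.Countable := by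
  classical
  by_contra hunc
  have hch : ∀ U : Set CX, ∃ n : ℕ, ∃ f : CX, ∃ F : Finset X, U ∈ 𝒰 → (F.card ≤ n ∧
      (∀ x ∈ F, |f.1 x| ≤ n) ∧
      ∀ g : CX, (∀ x ∈ F, |g.1 x - f.1 x| < 1 / ((n : ℝ) + 1)) → g ∈ U) := by
    intro U
    by_cases h : U ∈ 𝒰
    · obtain ⟨n, f, F, h'⟩ := basic (hU U h).1 (hU U h).2
      exact ⟨n, f, F, fun _ => h'⟩
    · exact ⟨0, ⟨fun _ => 0, continuous_const⟩, ∅, fun h' => absurd h' h⟩
  choose nn f F hF using hch
  have hex : ∃ n, {U | U ∈ 𝒰 ∧ nn U = n}.Infinite := by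
    by_contra hcon
    push Not at hcon
    apply hunc
    refine (countable_iUnion fun n => (hcon n).countable).mono ?_
    intro U hU
    exact mem_iUnion.2 ⟨nn U, hU, rfl⟩
  obtain ⟨n, hn⟩ := hex
  obtain ⟨K', hK', hinf, h, hh⟩ := compat (n : ℝ) (1 / ((n : ℝ) + 1)) (by positivity) n
    {U | U ∈ 𝒰 ∧ nn U = n} F (fun U => (f U).1) hn (by
      rintro U ⟨hU, rfl⟩
      exact (hF U hU).1) (by
      rintro U ⟨hU, rfl⟩
      exact (hF U hU).2.1)
  let e := hinf.natEmbedding
  have hS : (⋃ k : ℕ, ((F (e k) : Finset X) : Set X)).Countable :=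
    countable_iUnion fun k => (F (e k)).finite_toSet.countable
  let g : CX := ⟨ext _ h, continuous_ext hS h⟩
  have hg : ∀ k : ℕ, g ∈ (e k : Set CX) := by
    intro k
    have hk := hK' (e k).2
    apply (hF (e k) hk.1).2.2
    intro x hx
    have h1 := hh (e k) (e k).2 x hx
    have h2 : g.1 x = h x := ext_eq h (mem_iUnion.2 ⟨k, hx⟩)
    rw [h2, hk.2]
    exact h1
  have h3 : (range fun k => (e k : Set CX)).Infinite :=
    infinite_range_of_injective (Subtype.val_injective.comp e.injective)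
  apply h3
  refine (hfin g).subset ?_
  rintro _ ⟨k, rfl⟩
  exact ⟨(hK' (e k).2).1, hg k⟩

abbrev UX := {p : StoneCech X //
              ∀ (g : X → Set.Icc (-1 : ℝ) 1) (hg : Continuous g),
                (∀ x, ((g x : ℝ)) ∈ Set.Ioo (-1 : ℝ) 1) →
                ((stoneCechExtend hg p : Set.Icc (-1 : ℝ) 1) : ℝ) ∈ Set.Ioo (-1 : ℝ) 1}

/-- the copy of `X` in its realcompactification -/
def j (x : X) : UX := ⟨stoneCechUnit x, by
  intro g hg h
  rw [stoneCechExtend_stoneCechUnit]
  exact h x⟩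

theorem continuous_j : Continuous j := continuous_stoneCechUnit.subtype_mk _

/-- the corner point in the Stone-Cech compactification -/
theorem exists_corner (i : ℝ) : ∃ p : StoneCech X, ∀ W : Set X, Tr i W →
    p ∈ closure (stoneCechUnit '' W) := by
  let F : Filter X :=
    { sets := {W | Tr i W}
      univ_sets := Tr.univ i
      sets_of_superset := fun h h' => h.mono h'
      inter_sets := fun h h' => h.inter h' }
  have hF : F.NeBot := by
    refine ⟨fun h => ?_⟩
    have : (∅ : Set X) ∈ F := by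
      rw [h]
      exact Filter.mem_bot
    exact absurd (Tr.nonempty (this : Tr i ∅)) (by simp)
  have : (F.map (stoneCechUnit : X → StoneCech X)).NeBot := inferInstance
  obtain ⟨p, hp⟩ := exists_clusterPt_of_compactSpace (F.map (stoneCechUnit : X → StoneCech X))
  refine ⟨p, fun W hW => ?_⟩
  apply hp.mem_closure_of_mem
  exact Filter.image_mem_map (show W ∈ F from hW)

theorem corner_val {i : ℝ} {p : StoneCech X} (hp : ∀ W : Set X, Tr i W →
    p ∈ closure (stoneCechUnit '' W)) {Y : Type} [TopologicalSpace Y] [CompactSpace Y] [T2Space Y]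
    {g : X → Y} (hg : Continuous g) {c : Y} (hW : Tr i {x | g x = c}) :
    stoneCechExtend hg p = c := by
  have h1 : IsClosed {q : StoneCech X | stoneCechExtend hg q = c} :=
    isClosed_eq (continuous_stoneCechExtend hg) continuous_const
  have h2 : stoneCechUnit '' {x | g x = c} ⊆ {q : StoneCech X | stoneCechExtend hg q = c} := by
    rintro _ ⟨x, hx, rfl⟩
    change stoneCechExtend hg (stoneCechUnit x) = c
    rw [stoneCechExtend_stoneCechUnit]
    exact hx
  exact closure_minimal h2 h1 (hp _ hW)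

theorem exists_corner' (i : ℝ) : ∃ p : UX, ∀ W : Set X, Tr i W →
    p ∈ closure (j '' W) := by
  obtain ⟨p, hp⟩ := exists_corner i
  refine ⟨⟨p, ?_⟩, ?_⟩
  · intro g hg h
    obtain ⟨x, hx⟩ := plank (continuous_subtype_val.comp hg) i
    have hx' : Tr i {y | g y = g x} := hx.mono (fun y hy => Subtype.ext hy)
    rw [corner_val hp hg hx']
    exact h x
  · intro W hW
    rw [closure_subtype]
    have : Subtype.val '' (j '' W) = stoneCechUnit '' W := by
      rw [← image_comp]
      rfl
    rw [this]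
    exact hp W hW

/-- the clopen pieces -/
def piece (i : ℝ) : Set X := {x | match x with
  | X.inf => False
  | X.p i' _ _ => i' = i
  | X.q i' _ => i' = i
  | X.r i' _ => i' = i}

theorem tr_piece (i : ℝ) : Tr i (piece i) :=
  ⟨∅, ∅, countable_empty, Sm.countable countable_empty, fun _ _ => rfl, fun _ _ => rfl,
    fun _ _ _ _ => rfl⟩

theorem isClopen_piece (i : ℝ) : IsClopen (piece i) := by
  constructor
  · rw [← isOpen_compl_iff, isOpen_def]
    refine ⟨?_, ?_, ?_⟩
    · intro i' a' h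
      apply Sm.countable
      refine countable_empty.mono ?_
      intro b hb
      exact hb (fun h' => h h')
    · intro i' a' h
      refine countable_empty.mono ?_
      intro b hb
      exact hb (fun h' => h h')
    · intro _
      refine (finite_singleton i).subset ?_
      intro i' hi'
      by_contra hc
      exact hi' ⟨∅, ∅, countable_empty, Sm.countable countable_empty, fun _ _ h => hc h,
        fun _ _ h => hc h, fun _ _ _ _ h => hc h⟩
  · rw [isOpen_def]
    refine ⟨?_, ?_, ?_⟩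
    · intro i' a' h
      apply Sm.countable
      refine countable_empty.mono ?_
      intro b hb
      exact hb h
    · intro i' a' h
      refine countable_empty.mono ?_
      intro b hb
      exact hb h
    · intro h
      exact absurd h (fun h => h)

/-- a continuous function on the realcompactification separating the `i`-th corner -/
theorem exists_sep (i : ℝ) (p : UX) (hp : ∀ W : Set X, Tr i W → p ∈ closure (j '' W)) :
    ∃ f : UX → ℝ, Continuous f ∧ f p = 2 ∧ (∀ x ∉ piece i, f (j x) = 0) := by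
  classical
  let χ : X → Set.Icc (0 : ℝ) 1 := fun x => if x ∈ piece i then 1 else 0
  have hχ : Continuous χ := by
    refine continuous_def.2 fun s _ => ?_
    have hc := isClopen_piece i
    by_cases h1 : (1 : Set.Icc (0 : ℝ) 1) ∈ s <;> by_cases h0 : (0 : Set.Icc (0 : ℝ) 1) ∈ s
    · convert isOpen_univ
      ext x
      by_cases hx : x ∈ piece i <;> simp [χ, hx, h1, h0]
    · convert hc.isOpen
      ext x
      by_cases hx : x ∈ piece i <;> simp [χ, hx, h1, h0]
    · convert hc.compl.isOpen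
      ext x
      by_cases hx : x ∈ piece i <;> simp [χ, hx, h1, h0]
    · convert isOpen_empty
      ext x
      by_cases hx : x ∈ piece i <;> simp [χ, hx, h1, h0]
  have hv : ∀ x : X, ((stoneCechExtend hχ (j x).1 : Set.Icc (0 : ℝ) 1) : ℝ) = χ x := by
    intro x
    change ((stoneCechExtend hχ (stoneCechUnit x) : Set.Icc (0 : ℝ) 1) : ℝ) = χ x
    rw [stoneCechExtend_stoneCechUnit]
  have hcont : Continuous fun q : UX => 2 * ((stoneCechExtend hχ q.1 : Set.Icc (0 : ℝ) 1) : ℝ) :=
    continuous_const.mul (continuous_subtype_val.comp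
      ((continuous_stoneCechExtend hχ).comp continuous_subtype_val))
  refine ⟨fun q => 2 * ((stoneCechExtend hχ q.1 : Set.Icc (0 : ℝ) 1) : ℝ), hcont, ?_, ?_⟩
  · have h1 : IsClosed {q : UX | 2 * ((stoneCechExtend hχ q.1 : Set.Icc (0 : ℝ) 1) : ℝ) = 2} :=
      isClosed_eq hcont continuous_const
    have h2 : j '' piece i ⊆
        {q : UX | 2 * ((stoneCechExtend hχ q.1 : Set.Icc (0 : ℝ) 1) : ℝ) = 2} := by
      rintro _ ⟨x, hx, rfl⟩
      rw [Set.mem_ofPred_eq, hv]
      simp [χ, hx]
    exact closure_minimal h2 h1 (hp _ (tr_piece i))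
  · intro x hx
    change 2 * ((stoneCechExtend hχ (j x).1 : Set.Icc (0 : ℝ) 1) : ℝ) = 0
    rw [hv]
    simp [χ, hx]

theorem main_thm : ¬ (∀ (X : Type) [TopologicalSpace X] [T35Space X],
      (∀ 𝒰 : Set (Set {f : X → ℝ // Continuous f}),
          (∀ U ∈ 𝒰, IsOpen U ∧ U.Nonempty) →
          (∀ y : {f : X → ℝ // Continuous f}, {U | U ∈ 𝒰 ∧ y ∈ U}.Finite) →
          𝒰.Countable) →
      (∀ 𝒰 : Set (Set {f : {p : StoneCech X //
              ∀ (g : X → Set.Icc (-1 : ℝ) 1) (hg : Continuous g),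
                (∀ x, ((g x : ℝ)) ∈ Set.Ioo (-1 : ℝ) 1) →
                ((stoneCechExtend hg p : Set.Icc (-1 : ℝ) 1) : ℝ) ∈ Set.Ioo (-1 : ℝ) 1}
              → ℝ // Continuous f}),
          (∀ U ∈ 𝒰, IsOpen U ∧ U.Nonempty) →
          (∀ y, {U | U ∈ 𝒰 ∧ y ∈ U}.Finite) →
          𝒰.Countable)) := by
  classical
  intro H
  have H1 := H X pA
  choose c hc using exists_corner'
  let UU : ℝ → Set {f : UX → ℝ // Continuous f} := fun i =>
    {f | f.1 (j X.inf) + 1 < f.1 (c i)}
  have hopen : ∀ i, IsOpen (UU i) := by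
    intro i
    exact isOpen_lt (((continuous_apply _).comp continuous_subtype_val).add continuous_const)
      ((continuous_apply _).comp continuous_subtype_val)
  have hsep : ∀ i, ∃ f : {f : UX → ℝ // Continuous f}, f ∈ UU i ∧ ∀ i', i' ≠ i → f ∉ UU i' := by
    intro i
    obtain ⟨f, hf, hf2, hf0⟩ := exists_sep i (c i) (hc i)
    refine ⟨⟨f, hf⟩, ?_, ?_⟩
    · change f (j X.inf) + 1 < f (c i)
      rw [hf2, hf0 X.inf (fun h => h)]
      norm_num
    · intro i' hi' hmem
      change f (j X.inf) + 1 < f (c i') at hmem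
      have h1 : IsClosed {q : UX | f q = 0} := isClosed_eq hf continuous_const
      have h2 : j '' piece i' ⊆ {q : UX | f q = 0} := by
        rintro _ ⟨x, hx, rfl⟩
        apply hf0
        intro hx'
        apply hi'
        rcases x with _ | ⟨i1, a, b⟩ | ⟨i1, a⟩ | ⟨i1, b⟩
        · exact absurd hx (fun h => h)
        · exact (hx : i1 = i').symm.trans hx'
        · exact (hx : i1 = i').symm.trans hx'
        · exact (hx : i1 = i').symm.trans hx'
      have h3 := closure_minimal h2 h1 (hc i' _ (tr_piece i'))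
      rw [Set.mem_ofPred_eq] at h3
      rw [h3, hf0 X.inf (fun h => h)] at hmem
      norm_num at hmem
  have hinj : Function.Injective UU := by
    intro i i' h
    by_contra hne
    obtain ⟨f, hf, hf'⟩ := hsep i
    exact hf' i' (Ne.symm hne) (h ▸ hf)
  have h2 : (range UU).Countable := by
    apply H1
    · rintro _ ⟨i, rfl⟩
      obtain ⟨f, hf, _⟩ := hsep i
      exact ⟨hopen i, ⟨f, hf⟩⟩
    · intro f
      have hcf : Continuous (fun x => f.1 (j x)) := f.2.comp continuous_j
      have ho : IsOpen ((fun x => f.1 (j x)) ⁻¹' (Metric.ball (f.1 (j X.inf)) 1)) :=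
        Metric.isOpen_ball.preimage hcf
      have hfin := (isOpen_def.1 ho).2.2 (by
        rw [mem_preimage]
        exact Metric.mem_ball_self one_pos)
      refine (hfin.image UU).subset ?_
      rintro _ ⟨⟨i, rfl⟩, hi⟩
      refine ⟨i, ?_, rfl⟩
      intro htr
      have h1 : IsClosed {q : UX | f.1 q ≤ f.1 (j X.inf) + 1} :=
        isClosed_le f.2 continuous_const
      have h2 : j '' ((fun x => f.1 (j x)) ⁻¹' (Metric.ball (f.1 (j X.inf)) 1)) ⊆
          {q : UX | f.1 q ≤ f.1 (j X.inf) + 1} := by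
        rintro _ ⟨x, hx, rfl⟩
        rw [mem_preimage, Metric.mem_ball, Real.dist_eq] at hx
        have := (abs_lt.1 hx).2
        rw [Set.mem_ofPred_eq]
        linarith
      have h3 := closure_minimal h2 h1 (hc i _ htr)
      rw [Set.mem_ofPred_eq] at h3
      exact absurd hi (not_lt.2 h3)
  have h3 : (Set.univ : Set ℝ).Countable := by
    have := h2.preimage hinj
    refine this.mono ?_
    intro x _
    exact ⟨x, rfl⟩
  exact Set.not_countable_univ h3

end Pool.Agent.H8.PF
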