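import Mathlib

set_option autoImplicit false

open Set Filter Topology

namespace Pool.Agent.H8.PF

/-- the space: a point `inf` and, for each real `i`, a copy of a P-space plank without its corner -/
inductive X : Type
  | inf : X
  | p : ℝ → ℝ → Set ℝ → X
  | q : ℝ → ℝ → X
  | r : ℝ → Set ℝ → X

def Sm (S : Set (Set ℝ)) : Prop := Cardinal.mk S ≤ Cardinal.mk ℝ

theorem Sm.mono {S T : Set (Set ℝ)} (h : S ⊆ T) (hT : Sm T) : Sm S :=
  (Cardinal.mk_le_mk_of_subset h).trans hT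

theorem Sm.iUnion {f : ℝ → Set (Set ℝ)} (h : ∀ a, Sm (f a)) : Sm (⋃ a, f a) := by
  have h1 := Cardinal.mk_iUnion_le_sum_mk (f := f)
  have h2 : Cardinal.sum (fun a => Cardinal.mk (f a)) ≤ Cardinal.sum (fun _ : ℝ => Cardinal.mk ℝ) :=
    Cardinal.sum_le_sum _ _ h
  refine h1.trans (h2.trans ?_)
  rw [Cardinal.sum_const', Cardinal.mul_eq_self]
  exact Cardinal.aleph0_le_mk _

theorem Sm.countable {S : Set (Set ℝ)} (h : S.Countable) : Sm S :=
  (Cardinal.le_aleph0_iff_set_countable.2 h).trans (Cardinal.aleph0_le_mk _)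

theorem Sm.union {S T : Set (Set ℝ)} (hS : Sm S) (hT : Sm T) : Sm (S ∪ T) := by
  refine (Cardinal.mk_union_le S T).trans ?_
  refine (add_le_add hS hT).trans ?_
  rw [Cardinal.add_eq_self]
  exact Cardinal.aleph0_le_mk _

theorem Sm.iUnionNat {f : ℕ → Set (Set ℝ)} (h : ∀ a, Sm (f a)) : Sm (⋃ a, f a) := by
  have h1 := Cardinal.mk_iUnion_le_sum_mk (f := f)
  have h2 : Cardinal.sum (fun a => Cardinal.mk (f a)) ≤ Cardinal.sum (fun _ : ℕ => Cardinal.mk ℝ) :=
    Cardinal.sum_le_sum _ _ h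
  refine h1.trans (h2.trans ?_)
  rw [Cardinal.sum_const']
  refine (mul_le_mul' (Cardinal.mk_le_aleph0 (α := ℕ)) le_rfl).trans ?_
  rw [Cardinal.aleph0_mul_eq]
  exact Cardinal.aleph0_le_mk _

theorem Sm.exists_notMem {S : Set (Set ℝ)} (h : Sm S) : ∃ b, b ∉ S := by
  by_contra hc
  push Not at hc
  have : S = univ := eq_univ_of_forall hc
  rw [this] at h
  unfold Sm at h
  rw [Cardinal.mk_univ, Cardinal.mk_set] at h
  exact absurd h (not_le.2 (Cardinal.cantor _))

theorem exists_notMem_real {S : Set ℝ} (h : S.Countable) : ∃ a, a ∉ S := by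
  by_contra hc
  push Not at hc
  have : S = univ := eq_univ_of_forall hc
  rw [this] at h
  exact Set.not_countable_univ h

/-- `W` contains a trace of a neighbourhood of the missing corner of the `i`-th plank -/
def Tr (i : ℝ) (W : Set X) : Prop :=
  ∃ (A : Set ℝ) (B : Set (Set ℝ)), A.Countable ∧ Sm B ∧ (∀ a ∉ A, X.q i a ∈ W) ∧
    (∀ b ∉ B, X.r i b ∈ W) ∧ ∀ a ∉ A, ∀ b ∉ B, X.p i a b ∈ W

theorem Tr.mono {i : ℝ} {W W' : Set X} (h : W ⊆ W') (hT : Tr i W) : Tr i W' := by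
  obtain ⟨A, B, hA, hB, h1, h2, h3⟩ := hT
  exact ⟨A, B, hA, hB, fun a ha => h (h1 a ha), fun b hb => h (h2 b hb),
    fun a ha b hb => h (h3 a ha b hb)⟩

theorem Tr.inter {i : ℝ} {W W' : Set X} (h : Tr i W) (h' : Tr i W') : Tr i (W ∩ W') := by
  obtain ⟨A, B, hA, hB, h1, h2, h3⟩ := h
  obtain ⟨A', B', hA', hB', h1', h2', h3'⟩ := h'
  refine ⟨A ∪ A', B ∪ B', hA.union hA', hB.union hB', ?_, ?_, ?_⟩
  · intro a ha
    rw [mem_union, not_or] at ha
    exact ⟨h1 a ha.1, h1' a ha.2⟩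
  · intro b hb
    rw [mem_union, not_or] at hb
    exact ⟨h2 b hb.1, h2' b hb.2⟩
  · intro a ha b hb
    rw [mem_union, not_or] at ha hb
    exact ⟨h3 a ha.1 b hb.1, h3' a ha.2 b hb.2⟩

theorem Tr.nonempty {i : ℝ} {W : Set X} (h : Tr i W) : W.Nonempty := by
  obtain ⟨A, B, hA, hB, h1, h2, h3⟩ := h
  obtain ⟨a, ha⟩ := exists_notMem_real hA
  exact ⟨_, h1 a ha⟩

theorem Tr.univ (i : ℝ) : Tr i Set.univ :=
  ⟨∅, ∅, countable_empty, Sm.countable countable_empty, by simp, by simp, by simp⟩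

instance : TopologicalSpace X where
  IsOpen U := (∀ i a, X.q i a ∈ U → Sm {b | X.p i a b ∉ U}) ∧
    (∀ i b, X.r i b ∈ U → {a | X.p i a b ∉ U}.Countable) ∧
    (X.inf ∈ U → {i | ¬ Tr i U}.Finite)
  isOpen_univ := by
    refine ⟨?_, ?_, ?_⟩
    · intro i a _
      exact Sm.countable (by simp)
    · intro i b _
      simp
    · intro _
      have : {i | ¬ Tr i Set.univ} = ∅ := by
        ext i
        simp [Tr.univ i]
      rw [this]
      exact finite_empty
  isOpen_inter := by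
    rintro U V ⟨h1, h2, h3⟩ ⟨h1', h2', h3'⟩
    refine ⟨?_, ?_, ?_⟩
    · intro i a h
      refine Sm.mono ?_ ((h1 i a h.1).union (h1' i a h.2))
      intro b hb
      by_contra hc
      rw [mem_union, not_or] at hc
      simp only [Set.mem_ofPred_eq, not_not] at hc
      exact hb hc
    · intro i b h
      refine Set.Countable.mono ?_ ((h2 i b h.1).union (h2' i b h.2))
      intro a ha
      by_contra hc
      rw [mem_union, not_or] at hc
      simp only [Set.mem_ofPred_eq, not_not] at hc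
      exact ha hc
    · intro h
      refine Set.Finite.subset ((h3 h.1).union (h3' h.2)) ?_
      intro i hi
      by_contra hc
      rw [mem_union, not_or] at hc
      simp only [Set.mem_ofPred_eq, not_not] at hc
      exact hi (hc.1.inter hc.2)
  isOpen_sUnion := by
    intro 𝒮 h
    refine ⟨?_, ?_, ?_⟩
    · rintro i a ⟨U, hU, hx⟩
      refine Sm.mono ?_ ((h U hU).1 i a hx)
      intro b hb hc
      exact hb ⟨U, hU, hc⟩
    · rintro i b ⟨U, hU, hx⟩
      refine Set.Countable.mono ?_ ((h U hU).2.1 i b hx)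
      intro a ha hc
      exact ha ⟨U, hU, hc⟩
    · rintro ⟨U, hU, hx⟩
      refine Set.Finite.subset ((h U hU).2.2 hx) ?_
      intro i hi hc
      exact hi (hc.mono (subset_sUnion_of_mem hU))

theorem isOpen_def {U : Set X} : IsOpen U ↔ (∀ i a, X.q i a ∈ U → Sm {b | X.p i a b ∉ U}) ∧
    (∀ i b, X.r i b ∈ U → {a | X.p i a b ∉ U}.Countable) ∧
    (X.inf ∈ U → {i | ¬ Tr i U}.Finite) := Iff.rfl

end Pool.Agent.H8.PF
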