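import Pool.Agent.H8.PF.Space

set_option autoImplicit false

open Set Filter Topology

namespace Pool.Agent.H8.PF

instance : T1Space X := by
  refine ⟨fun y => ?_⟩
  rw [← isOpen_compl_iff, isOpen_def]
  refine ⟨?_, ?_, ?_⟩
  · intro i a _
    apply Sm.countable
    apply Set.Subsingleton.countable
    intro b hb b' hb'
    simp only [Set.mem_ofPred_eq, mem_compl_iff, mem_singleton_iff, not_not] at hb hb'
    have := hb.trans hb'.symm
    injection this
  · intro i b _
    apply Set.Subsingleton.countable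
    intro a ha a' ha'
    simp only [Set.mem_ofPred_eq, mem_compl_iff, mem_singleton_iff, not_not] at ha ha'
    have := ha.trans ha'.symm
    injection this
  · intro _
    rcases y with _ | ⟨j, c, d⟩ | ⟨j, c⟩ | ⟨j, d⟩
    · refine Set.finite_empty.subset ?_
      intro i hi
      refine hi ⟨∅, ∅, countable_empty, Sm.countable countable_empty, ?_, ?_, ?_⟩ <;> intros <;>
        simp
    all_goals
      refine (Set.finite_singleton j).subset ?_
      intro i hi
      by_contra hij
      refine hi ⟨∅, ∅, countable_empty, Sm.countable countable_empty, ?_, ?_, ?_⟩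
      all_goals
        intros
        intro hx
        rw [mem_singleton_iff] at hx
        first
        | (injection hx; contradiction)
        | (injection hx with e1 e2; exact hij e1)
        | (injection hx with e1 e2 e3; exact hij e1)
        | cases hx

def nb (T : ℝ → Prop) (A : ℝ → Set ℝ) (B : ℝ → Set (Set ℝ)) : X → Prop
  | X.inf => True
  | X.p i a b => T i ∧ a ∉ A i ∧ b ∉ B i
  | X.q i a => T i ∧ a ∉ A i
  | X.r i b => T i ∧ b ∉ B i

def nq (i a : ℝ) (U : Set X) : X → Prop
  | X.inf => False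
  | X.p i' a' b => i' = i ∧ a' = a ∧ X.p i' a' b ∈ U
  | X.q i' a' => i' = i ∧ a' = a
  | X.r _ _ => False

def nr (i : ℝ) (b : Set ℝ) (U : Set X) : X → Prop
  | X.inf => False
  | X.p i' a b' => i' = i ∧ b' = b ∧ X.p i' a b' ∈ U
  | X.q _ _ => False
  | X.r i' b' => i' = i ∧ b' = b

theorem clopen_nq {i a : ℝ} {U : Set X} (hU : IsOpen U) (hx : X.q i a ∈ U) :
    IsClopen {x | nq i a U x} := by
  refine ⟨?_, ?_⟩
  · rw [← isOpen_compl_iff, isOpen_def]
    refine ⟨?_, ?_, ?_⟩
    · intro i' a' h
      apply Sm.countable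
      refine countable_empty.mono ?_
      intro b hb
      simp only [Set.mem_ofPred_eq, mem_compl_iff, not_not, nq] at hb h
      exact h ⟨hb.1, hb.2.1⟩
    · intro i' b' _
      refine (countable_singleton a).mono ?_
      intro a' ha'
      simp only [Set.mem_ofPred_eq, mem_compl_iff, not_not, nq] at ha'
      exact ha'.2.1
    · intro _
      refine (finite_singleton i).subset ?_
      intro i' hi'
      by_contra hc
      refine hi' ⟨∅, ∅, countable_empty, Sm.countable countable_empty, ?_, ?_, ?_⟩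
      · intro a' _ h
        exact hc h.1
      · intro b' _ h
        exact h
      · intro a' _ b' _ h
        exact hc h.1
  · rw [isOpen_def]
    refine ⟨?_, ?_, ?_⟩
    · intro i' a' h
      simp only [Set.mem_ofPred_eq, nq] at h
      obtain ⟨rfl, rfl⟩ := h
      refine Sm.mono ?_ ((isOpen_def.1 hU).1 i' a' hx)
      intro b hb h
      exact hb ⟨rfl, rfl, h⟩
    · intro i' b' h
      exact absurd h (by simp [nq])
    · intro h
      exact absurd h (by simp [nq])

theorem clopen_nr {i : ℝ} {b : Set ℝ} {U : Set X} (hU : IsOpen U) (hx : X.r i b ∈ U) :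
    IsClopen {x | nr i b U x} := by
  refine ⟨?_, ?_⟩
  · rw [← isOpen_compl_iff, isOpen_def]
    refine ⟨?_, ?_, ?_⟩
    · intro i' a' _
      apply Sm.countable
      refine (countable_singleton b).mono ?_
      intro b' hb'
      simp only [Set.mem_ofPred_eq, mem_compl_iff, not_not, nr] at hb'
      exact hb'.2.1
    · intro i' b' h
      refine countable_empty.mono ?_
      intro a ha
      simp only [Set.mem_ofPred_eq, mem_compl_iff, not_not, nr] at ha h
      exact h ⟨ha.1, ha.2.1⟩
    · intro _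
      refine (finite_singleton i).subset ?_
      intro i' hi'
      by_contra hc
      refine hi' ⟨∅, ∅, countable_empty, Sm.countable countable_empty, ?_, ?_, ?_⟩
      · intro a' _ h
        exact h
      · intro b' _ h
        exact hc h.1
      · intro a' _ b' _ h
        exact hc h.1
  · rw [isOpen_def]
    refine ⟨?_, ?_, ?_⟩
    · intro i' a' h
      exact absurd h (by simp [nr])
    · intro i' b' h
      simp only [Set.mem_ofPred_eq, nr] at h
      obtain ⟨rfl, rfl⟩ := h
      refine Set.Countable.mono ?_ ((isOpen_def.1 hU).2.1 i' b' hx)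
      intro a ha h
      exact ha ⟨rfl, rfl, h⟩
    · intro h
      exact absurd h (by simp [nr])

theorem clopen_nb (T : ℝ → Prop) (A : ℝ → Set ℝ) (B : ℝ → Set (Set ℝ))
    (hA : ∀ i, T i → (A i).Countable) (hB : ∀ i, T i → Sm (B i)) (hT : {i | ¬ T i}.Finite) :
    IsClopen {x | nb T A B x} := by
  classical
  refine ⟨?_, ?_⟩
  · rw [← isOpen_compl_iff, isOpen_def]
    refine ⟨?_, ?_, ?_⟩
    · intro i' a' h
      apply Sm.countable
      refine countable_empty.mono ?_
      intro b hb
      simp only [Set.mem_ofPred_eq, mem_compl_iff, not_not, nb] at hb h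
      exact h ⟨hb.1, hb.2.1⟩
    · intro i' b' h
      refine countable_empty.mono ?_
      intro a ha
      simp only [Set.mem_ofPred_eq, mem_compl_iff, not_not, nb] at ha h
      exact h ⟨ha.1, ha.2.2⟩
    · intro h
      exact absurd h (by simp [nb])
  · rw [isOpen_def]
    refine ⟨?_, ?_, ?_⟩
    · intro i' a' h
      refine Sm.mono ?_ (hB i' h.1)
      intro b hb
      by_contra hc
      exact hb ⟨h.1, h.2, hc⟩
    · intro i' b' h
      refine Set.Countable.mono ?_ (hA i' h.1)
      intro a ha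
      by_contra hc
      exact ha ⟨h.1, hc, h.2⟩
    · intro _
      refine hT.subset ?_
      intro i hi hc
      exact hi ⟨A i, B i, hA i hc, hB i hc, fun a ha => ⟨hc, ha⟩, fun b hb => ⟨hc, hb⟩,
        fun a ha b hb => ⟨hc, ha, hb⟩⟩

theorem exists_clopen {x : X} {U : Set X} (hU : IsOpen U) (hx : x ∈ U) :
    ∃ C : Set X, IsClopen C ∧ x ∈ C ∧ C ⊆ U := by
  classical
  rcases x with _ | ⟨i, a, b⟩ | ⟨i, a⟩ | ⟨i, b⟩
  · have h3 := (isOpen_def.1 hU).2.2 hx
    have hch : ∀ i, ∃ (A : Set ℝ) (B : Set (Set ℝ)), Tr i U → (A.Countable ∧ Sm B ∧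
      (∀ a ∉ A, X.q i a ∈ U) ∧ (∀ b ∉ B, X.r i b ∈ U) ∧ ∀ a ∉ A, ∀ b ∉ B, X.p i a b ∈ U) := by
      intro i
      by_cases h : Tr i U
      · obtain ⟨A, B, h⟩ := h
        exact ⟨A, B, fun _ => h⟩
      · exact ⟨∅, ∅, fun h' => absurd h' h⟩
    choose A B hAB using hch
    refine ⟨{x | nb (fun i => Tr i U) A B x}, clopen_nb _ _ _ (fun i h => (hAB i h).1)
      (fun i h => (hAB i h).2.1) h3, trivial, ?_⟩
    intro x hx'
    rcases x with _ | ⟨i, a, b⟩ | ⟨i, a⟩ | ⟨i, b⟩
    · exact hx
    · exact (hAB i hx'.1).2.2.2.2 a hx'.2.1 b hx'.2.2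
    · exact (hAB i hx'.1).2.2.1 a hx'.2
    · exact (hAB i hx'.1).2.2.2.1 b hx'.2
  · refine ⟨{X.p i a b}, ⟨isClosed_singleton, ?_⟩, rfl, by simpa using hx⟩
    rw [isOpen_def]
    refine ⟨?_, ?_, ?_⟩
    · intro i' a' h
      cases h
    · intro i' a' h
      cases h
    · intro h
      cases h
  · refine ⟨_, clopen_nq hU hx, ⟨rfl, rfl⟩, ?_⟩
    intro x hx'
    rcases x with _ | ⟨i', a', b⟩ | ⟨i', a'⟩ | ⟨i', b⟩
    · exact absurd hx' (by simp [nq])
    · exact hx'.2.2
    · obtain ⟨rfl, rfl⟩ := hx'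
      exact hx
    · exact absurd hx' (by simp [nq])
  · refine ⟨_, clopen_nr hU hx, ⟨rfl, rfl⟩, ?_⟩
    intro x hx'
    rcases x with _ | ⟨i', a', b⟩ | ⟨i', a'⟩ | ⟨i', b⟩
    · exact absurd hx' (by simp [nr])
    · exact hx'.2.2
    · exact absurd hx' (by simp [nr])
    · obtain ⟨rfl, rfl⟩ := hx'
      exact hx

instance : T35Space X where
  toCompletelyRegularSpace := by
    apply CompletelyRegularSpace.of_isTopologicalBasis_clopens
    refine TopologicalSpace.isTopologicalBasis_of_isOpen_of_nhds ?_ ?_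
    · intro u hu
      exact hu.2
    · intro x U hx hU
      obtain ⟨C, hC, hxC, hCU⟩ := exists_clopen hU hx
      exact ⟨C, hC, hxC, hCU⟩

end Pool.Agent.H8.PF
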